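import Pool.Agent.H.MP_af48a1_al.C

set_option autoImplicit false

namespace Pool.Agent.H.MP_330ad9_al

open Pool.Agent.H.Cox Pool.Agent.H.MP_af48a1_al Classical

variable {B : Type} {M : CoxeterMatrix B} {W : Type} [Group W] {cs : CoxeterSystem M W}

theorem E_mul {y y' : W} (h : E cs y y') (i : B) :
    y' = cs.simple i * y ∨ E cs (cs.simple i * y) (cs.simple i * y') := by
  obtain ⟨_, ⟨v, k, rfl⟩, rfl, hl⟩ := h
  obtain ⟨ω, rfl⟩ := cs.wordProd_surjective y
  obtain ⟨ν, rfl⟩ := cs.wordProd_surjective v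
  let J : Finset B := (i :: k :: (ω ++ ν)).toFinset
  obtain ⟨φ, h⟩ := exists_emb (M' := sub M J) Subtype.val_injective (fun _ _ => rfl) cs
    (sub M J).toCoxeterSystem
  obtain ⟨y, h3, -⟩ := h.cover ω (by simp +contextual [J])
  obtain ⟨v, h4, -⟩ := h.cover ν (by simp +contextual [J])
  rw [← h3, ← h4, ← h.sim ⟨k, by simp [J]⟩] at hl ⊢
  rw [← h.sim ⟨i, by simp [J]⟩]
  simp only [← map_inv, ← map_mul, h.len] at hl ⊢
  rcases E.simple_mul (cs := (sub M J).toCoxeterSystem) ⟨_, ⟨v, _, rfl⟩, rfl, hl⟩ ⟨i, by simp [J]⟩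
    with a | ⟨t, a1, a2, a3⟩
  · exact Or.inl (congrArg φ a)
  · exact Or.inr ⟨φ t, h.isr a1, by rw [a2, map_mul], by rwa [h.len, h.len]⟩

theorem Br_up {y z : W} (h : Br cs y z) (i : B) : Br cs (up cs i y) (up cs i z) := by
  induction h with
  | refl => exact Relation.ReflTransGen.refl
  | @tail a c _ h2 ih =>
    refine Relation.ReflTransGen.trans ih ?_
    by_cases h : cs.length a < cs.length (cs.simple i * a)
    · rw [Cox.up, if_pos h]
      rcases E_mul h2 i with h3 | h3
      · rw [← h3]; exact (br_up i c).1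
      · exact Relation.ReflTransGen.head h3 (br_up i c).2
    · rw [Cox.up, if_neg h]
      exact Relation.ReflTransGen.head h2 (br_up i c).1

theorem Br_dn {y z : W} (h : Br cs y z) (i : B) : Br cs (dn cs i y) (dn cs i z) := by
  induction h with
  | refl => exact Relation.ReflTransGen.refl
  | @tail a c _ h2 ih =>
    refine Relation.ReflTransGen.trans ih ?_
    by_cases h : cs.length c < cs.length (cs.simple i * c)
    · rw [Cox.dn.eq_1 cs i c, if_pos h]
      exact Relation.ReflTransGen.tail (br_dn i a).1 h2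
    · rw [Cox.dn.eq_1 cs i c, if_neg h]
      rcases E_mul h2 i with h3 | h3
      · rw [h3, cs.simple_mul_simple_cancel_left]; exact (br_dn i a).1
      · exact Relation.ReflTransGen.tail (br_dn i a).2 h3

variable (cs) in
/-- left descent -/
def D (a : W) (i : B) : Prop := cs.length (cs.simple i * a) < cs.length a

theorem not_D {a : W} {i : B} : ¬ D cs a i ↔ cs.length a < cs.length (cs.simple i * a) := by
  have := cs.length_simple_mul_ne a i
  unfold D; omega

theorem Br_len {y z : W} (h : Br cs y z) : y = z ∨ cs.length y < cs.length z := by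
  induction h with
  | refl => exact Or.inl rfl
  | tail _ h2 ih =>
    obtain ⟨_, _, _, h3⟩ := h2
    rcases ih with rfl | ih <;> omega

theorem Br_le {y z : W} (h : Br cs y z) : cs.length y ≤ cs.length z := by
  rcases Br_len h with rfl | h <;> omega

theorem Br_anti {y z : W} (h : Br cs y z) (h' : Br cs z y) : y = z :=
  (Br_len h).resolve_right (Br_le h').not_gt

/-- `y ≤ z`, `s z < z` gives `s y ≤ z` -/
theorem lift1 {y z : W} (h : Br cs y z) {i : B} (hz : D cs z i) : Br cs (cs.simple i * y) z := by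
  have h1 := Br_up h i
  rw [Cox.up.eq_1 cs i z, if_neg (not_lt.mpr (le_of_lt hz))] at h1
  exact Relation.ReflTransGen.trans (br_up i y).2 h1

/-- `y ≤ x < s x` gives `s y ≤ s x` -/
theorem lift2 {y x : W} (h : Br cs y x) {i : B} (hx : ¬ D cs x i) :
    Br cs (cs.simple i * y) (cs.simple i * x) := by
  have h1 := Br_up h i
  rw [Cox.up.eq_1 cs i x, if_pos (not_D.mp hx)] at h1
  exact Relation.ReflTransGen.trans (br_up i y).2 h1

theorem lift3 {y x : W} {i : B} (h : Br cs y (cs.simple i * x)) (hx : ¬ D cs x i) :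
    (D cs y i ∧ Br cs (cs.simple i * y) x) ∨ (¬ D cs y i ∧ Br cs y x) := by
  have h1 := Br_dn h i
  have := not_D.mp hx
  rw [Cox.dn.eq_1 cs i (_ * _), cs.simple_mul_simple_cancel_left, if_neg (by omega), Cox.dn] at h1
  by_cases hy : D cs y i
  · rw [if_neg (not_lt.mpr (le_of_lt hy))] at h1; exact Or.inl ⟨hy, h1⟩
  · rw [if_pos (not_D.mp hy)] at h1; exact Or.inr ⟨hy, h1⟩

theorem Br_s {x : W} {i : B} (hx : ¬ D cs x i) : Br cs x (cs.simple i * x) :=
  Relation.ReflTransGen.single (E_simple (not_D.mp hx))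

theorem Br_inv {y z : W} (h : Br cs y z) : Br cs y⁻¹ z⁻¹ := by
  induction h with
  | refl => exact Relation.ReflTransGen.refl
  | @tail a c _ h2 ih =>
    obtain ⟨t, h1, rfl, h3⟩ := h2
    exact ih.tail ⟨_, h1.conj a⁻¹, by rw [mul_inv_rev, h1.inv]; group, by
      rwa [cs.length_inv, cs.length_inv]⟩

theorem red_cons {i : B} {ω : List B} {a : W}
    (h : cs.length (cs.wordProd (i :: ω) * a) = (i :: ω).length + cs.length a) :
    cs.length (cs.wordProd ω * a) = ω.length + cs.length a ∧ ¬ D cs (cs.wordProd ω * a) i := by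
  rw [cs.wordProd_cons, mul_assoc, List.length_cons] at h
  have h1 := cs.length_mul_le (cs.wordProd ω) a
  have h2 := cs.length_wordProd_le ω
  rw [not_D]
  rcases cs.length_simple_mul (cs.wordProd ω * a) i with h' | h' <;> omega

theorem Br_suf {x a : W} (h : cs.length (x * a) = cs.length x + cs.length a) : Br cs a (x * a) := by
  obtain ⟨ω, h1, rfl⟩ := cs.exists_isReduced x
  rw [h1.eq] at h
  clear h1
  induction ω with
  | nil => rw [cs.wordProd_nil, one_mul]; exact Relation.ReflTransGen.refl
  | cons i ω ih =>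
    obtain ⟨h1, h2⟩ := red_cons h
    rw [cs.wordProd_cons, mul_assoc]
    exact (ih h1).trans (Br_s h2)

theorem Br_pre {x a : W} (h : cs.length (x * a) = cs.length x + cs.length a) : Br cs x (x * a) := by
  have := Br_inv (Br_suf (cs := cs) (x := a⁻¹) (a := x⁻¹) (by
    rw [← mul_inv_rev, cs.length_inv, cs.length_inv, cs.length_inv, h, add_comm]))
  rwa [mul_inv_rev, inv_inv, inv_inv] at this

theorem Br_one (x : W) : Br cs 1 x := by simpa using Br_suf (cs := cs) (x := x) (a := 1) (by simp)

theorem D.br {a : W} {i : B} (h : D cs a i) : Br cs (cs.simple i) a := by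
  simpa using lift1 (Br_one a) h

theorem br_s_mul {i j : B} {x : W} (h : Br cs (cs.simple i) (cs.simple j * x)) :
    i = j ∨ Br cs (cs.simple i) x := by
  by_cases hx : D cs x j
  · refine Or.inr (h.trans ?_)
    have := Br_s (cs := cs) (x := cs.simple j * x) (i := j) (by
      rw [not_D, cs.simple_mul_simple_cancel_left]; exact hx)
    rwa [cs.simple_mul_simple_cancel_left] at this
  rcases lift3 h hx with ⟨h1, -⟩ | ⟨-, h1⟩
  · rw [D, cs.length_simple, Nat.lt_one_iff, cs.length_eq_zero_iff, mul_eq_one_iff_eq_inv,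
      cs.inv_simple] at h1
    exact Or.inl (simple_injective cs h1.symm)
  · exact Or.inr h1

theorem not_br_one (i : B) : ¬ Br cs (cs.simple i) 1 := fun h => by simpa using Br_le h

theorem mem_of_br {i : B} {ω : List B} (h : Br cs (cs.simple i) (cs.wordProd ω)) : i ∈ ω := by
  induction ω with
  | nil => exact (not_br_one i (by simpa using h)).elim
  | cons j ω ih =>
    rw [cs.wordProd_cons] at h
    exact List.mem_cons.mpr ((br_s_mul h).imp id ih)

theorem br_of_mem {i : B} {ω : List B} (h : cs.IsReduced ω) (hi : i ∈ ω) :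
    Br cs (cs.simple i) (cs.wordProd ω) := by
  induction ω with
  | nil => simp at hi
  | cons j ω ih =>
    obtain ⟨h1, h2⟩ := red_cons (cs := cs) (i := j) (ω := ω) (a := 1) (by simpa using h.eq)
    simp only [mul_one, cs.length_one, add_zero] at h1 h2
    rw [cs.wordProd_cons]
    rcases List.mem_cons.mp hi with rfl | hi
    · simpa using lift2 (Br_one _) h2
    · exact (ih h1 hi).trans (Br_s h2)

variable (cs) in
/-- standard parabolic subgroup -/
def P (J : Set B) : Subgroup W := Subgroup.closure (cs.simple '' J)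

theorem s_mem {J : Set B} {i : B} (h : i ∈ J) : cs.simple i ∈ P cs J :=
  Subgroup.subset_closure ⟨i, h, rfl⟩

theorem word_mem {J : Set B} {ω : List B} (h : ∀ i ∈ ω, i ∈ J) : cs.wordProd ω ∈ P cs J := by
  induction ω with
  | nil => simp
  | cons j ω ih =>
    rw [cs.wordProd_cons]
    exact mul_mem (s_mem (h j (by simp))) (ih fun i hi => h i (by simp [hi]))

theorem mem_P {J : Set B} {z : W} : z ∈ P cs J ↔ ∀ i, Br cs (cs.simple i) z → i ∈ J := by
  constructor
  · intro h
    induction h using Subgroup.closure_induction_left with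
    | one => exact fun i hi => (not_br_one i hi).elim
    | mul_left x hx y _ ih =>
      obtain ⟨j, hj, rfl⟩ := hx
      exact fun i hi => (br_s_mul hi).elim (· ▸ hj) (ih i)
    | inv_mul_cancel x hx y _ ih =>
      obtain ⟨j, hj, rfl⟩ := hx
      rw [cs.inv_simple]
      exact fun i hi => (br_s_mul hi).elim (· ▸ hj) (ih i)
  · intro h
    obtain ⟨ω, h1, rfl⟩ := cs.exists_isReduced z
    exact word_mem fun i hi => h i (br_of_mem h1 hi)

theorem P_down {J : Set B} {y z : W} (h : Br cs y z) (hz : z ∈ P cs J) : y ∈ P cs J :=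
  mem_P.mpr fun i hi => mem_P.mp hz i (hi.trans h)

/-- an element with all of `J` as left descents dominates `W_J` -/
theorem dom {J : Set B} {a z : W} (h : ∀ i ∈ J, D cs a i) (hz : z ∈ P cs J) : Br cs z a := by
  induction hz using Subgroup.closure_induction_left with
  | one => exact Br_one a
  | mul_left x hx y _ ih =>
    obtain ⟨j, hj, rfl⟩ := hx
    exact lift1 ih (h j hj)
  | inv_mul_cancel x hx y _ ih =>
    obtain ⟨j, hj, rfl⟩ := hx
    rw [cs.inv_simple]
    exact lift1 ih (h j hj)

variable (cs) in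
/-- minimal coset representative -/
def Mn (J : Set B) (v : W) : Prop := ∀ i ∈ J, cs.length v < cs.length (v * cs.simple i)

theorem rdesc {J : Set B} {z : W} (hz : z ∈ P cs J) (h1 : z ≠ 1) :
    ∃ i ∈ J, cs.length (z * cs.simple i) + 1 = cs.length z := by
  obtain ⟨i, hi⟩ := cs.exists_rightDescent_of_ne_one h1
  unfold CoxeterSystem.IsRightDescent at hi
  refine ⟨i, mem_P.mp (inv_mem hz) i (D.br ?_), ?_⟩
  · rw [D, ← cs.length_inv, mul_inv_rev, inv_inv, cs.inv_simple, cs.length_inv]; exact hi
  · rcases cs.length_mul_simple z i with h | h <;> omega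

theorem Mn.add {J : Set B} {v : W} (h : Mn cs J v) {z : W} (hz : z ∈ P cs J) :
    cs.length (v * z) = cs.length v + cs.length z := by
  induction hn : cs.length v using Nat.strong_induction_on generalizing v z with
  | _ n ih =>
  by_cases h1 : v = 1
  · subst h1; simp [← hn]
  obtain ⟨k, hk⟩ := cs.exists_leftDescent_of_ne_one h1
  unfold CoxeterSystem.IsLeftDescent at hk
  obtain ⟨v, rfl⟩ : ∃ v', v = cs.simple k * v' :=
    ⟨cs.simple k * v, (cs.simple_mul_simple_cancel_left _).symm⟩
  rw [cs.simple_mul_simple_cancel_left] at hk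
  have h2 : cs.length (cs.simple k * v) = cs.length v + 1 := by
    rcases cs.length_simple_mul v k with h | h <;> omega
  have h3 : ∀ z ∈ P cs J, cs.length (v * z) = cs.length v + cs.length z := fun z hz =>
    ih _ (by omega) (fun i hi => by
      have := h i hi
      rw [mul_assoc] at this
      rcases cs.length_simple_mul (v * cs.simple i) k with a | a <;>
        rcases cs.length_mul_simple v i with a' | a' <;> omega) hz rfl
  suffices cs.length (v * z) < cs.length (cs.simple k * (v * z)) by
    have := h3 z hz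
    rw [mul_assoc]
    rcases cs.length_simple_mul (v * z) k with a | a <;> omega
  induction hm : cs.length z using Nat.strong_induction_on generalizing z with
  | _ m ihz =>
  by_cases h4 : z = 1
  · subst h4; rw [mul_one]; omega
  obtain ⟨i, hi, h5⟩ := rdesc hz h4
  have h6 := mul_mem hz (s_mem hi)
  obtain ⟨z, rfl⟩ : ∃ z', z = z' * cs.simple i :=
    ⟨z * cs.simple i, (cs.simple_mul_simple_cancel_right _).symm⟩
  rw [cs.simple_mul_simple_cancel_right] at h5 h6
  have h7 := ihz _ (by omega) h6 rfl
  have h8 := h3 _ hz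
  have h9 := h3 _ h6
  rcases E_mul (cs := cs) (y := v * z) (y' := v * (z * cs.simple i))
    ⟨_, (cs.isReflection_simple i).conj (v * z), by group, by omega⟩ k with a | ⟨_, -, -, a⟩
  · have b1 : cs.simple k * v = v * (z * cs.simple i * z⁻¹) := by
      rw [← mul_assoc, a]; group
    have b2 := mul_mem hz (inv_mem h6)
    have b3 := h3 _ b2
    obtain ⟨j, hj⟩ := cs.length_eq_one_iff.mp
      (show cs.length (z * cs.simple i * z⁻¹) = 1 by rw [← b1] at b3; omega)
    have := h j (mem_P.mp b2 j (hj ▸ Relation.ReflTransGen.refl))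
    rw [b1, hj, cs.simple_mul_simple_cancel_right, ← hj, ← b1] at this
    omega
  · rcases cs.length_simple_mul (v * (z * cs.simple i)) k with a' | a' <;>
      rcases cs.length_simple_mul (v * z) k with a'' | a'' <;> omega

theorem exists_dec (J : Set B) (w : W) : ∃ v z, Mn cs J v ∧ z ∈ P cs J ∧ w = v * z := by
  induction hn : cs.length w using Nat.strong_induction_on generalizing w with
  | _ n ih =>
  by_cases h : Mn cs J w
  · exact ⟨w, 1, h, one_mem _, (mul_one w).symm⟩
  unfold Mn at h
  push Not at h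
  obtain ⟨i, hi, h⟩ := h
  have := cs.length_mul_simple_ne w i
  obtain ⟨v, z, h1, h2, h3⟩ := ih _ (by omega) (w * cs.simple i) rfl
  exact ⟨v, z * cs.simple i, h1, mul_mem h2 (s_mem hi), by
    rw [← mul_assoc, ← h3, cs.simple_mul_simple_cancel_right]⟩

theorem Mn.uniq {J : Set B} {v v' z z' : W} (h : Mn cs J v) (h' : Mn cs J v') (hz : z ∈ P cs J)
    (hz' : z' ∈ P cs J) (e : v * z = v' * z') : v = v' := by
  have e1 : v = v' * (z' * z⁻¹) := by rw [← mul_assoc, ← e]; group
  have e2 : v' = v * (z * z'⁻¹) := by rw [← mul_assoc, e]; group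
  have a1 := h'.add (mul_mem hz' (inv_mem hz))
  have a2 := h.add (mul_mem hz (inv_mem hz'))
  rw [← e1] at a1
  rw [← e2] at a2
  rw [e1, cs.length_eq_zero_iff.mp (show cs.length (z' * z⁻¹) = 0 by omega), mul_one]

end Pool.Agent.H.MP_330ad9_al
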