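import Pool.Agent.H.MP_330ad9_al.A

set_option autoImplicit false

namespace Pool.Agent.H.MP_330ad9_al

open Pool.Agent.H.Cox Classical

variable {B : Type} {M : CoxeterMatrix B} {W : Type} [Group W] {cs : CoxeterSystem M W}

variable (cs) in
/-- `m` is the largest element of `W_Q` below `w` -/
structure Mx (w : W) (Q : Set B) (m : W) : Prop where
  mem : m ∈ P cs Q
  le : Br cs m w
  max : ∀ z ∈ P cs Q, Br cs z w → Br cs z m

theorem Mx.uniq {w m m' : W} {Q : Set B} (h : Mx cs w Q m) (h' : Mx cs w Q m') : m = m' :=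
  Br_anti (h'.max _ h.mem h.le) (h.max _ h'.mem h'.le)

theorem Mx.step1 {x m : W} {Q : Set B} (h : Mx cs x Q m) {i : B} (hx : ¬ D cs x i) (hi : i ∈ Q)
    (hm : ¬ D cs m i) : Mx cs (cs.simple i * x) Q (cs.simple i * m) := by
  refine ⟨mul_mem (s_mem hi) h.mem, lift2 h.le hx, fun z hz h1 => ?_⟩
  rcases lift3 h1 hx with ⟨-, h2⟩ | ⟨-, h2⟩
  · simpa using lift2 (h.max _ (mul_mem (s_mem hi) hz) h2) hm
  · exact (h.max _ hz h2).trans (Br_s hm)

theorem Mx.step2 {x m : W} {Q : Set B} (h : Mx cs x Q m) {i : B} (hx : ¬ D cs x i)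
    (hm : i ∈ Q → D cs m i) : Mx cs (cs.simple i * x) Q m := by
  refine ⟨h.mem, h.le.trans (Br_s hx), fun z hz h1 => ?_⟩
  rcases lift3 h1 hx with ⟨h3, h2⟩ | ⟨-, h2⟩
  · have hi := mem_P.mp hz i h3.br
    simpa using lift1 (h.max _ (mul_mem (s_mem hi) hz) h2) (hm hi)
  · exact h.max _ hz h2

theorem Mx.desc {a m : W} {Q : Set B} (h : Mx cs a Q m) {i : B} (hi : i ∈ Q) (ha : D cs a i) :
    D cs m i := by
  have := Br_le (h.max _ (mul_mem (s_mem hi) h.mem) (lift1 h.le ha))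
  rw [← not_not (a := D cs m i), not_D]; omega

theorem Mx.word {a m : W} {Q : Set B} (h : Mx cs a Q m) (ω : List B)
    (hl : cs.length (cs.wordProd ω * a) = ω.length + cs.length a) :
    ∃ ω' : List B, (∀ i ∈ ω', i ∈ ω ∧ i ∈ Q) ∧
      cs.length (cs.wordProd ω' * m) = ω'.length + cs.length m ∧
      Mx cs (cs.wordProd ω * a) Q (cs.wordProd ω' * m) := by
  induction ω with
  | nil => exact ⟨[], by simp, by simp, by simpa using h⟩
  | cons i ω ih =>
    obtain ⟨h1, h2⟩ := red_cons hl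
    obtain ⟨ω', h3, h4, h5⟩ := ih h1
    rw [cs.wordProd_cons, mul_assoc]
    by_cases hi : i ∈ Q → D cs (cs.wordProd ω' * m) i
    · exact ⟨ω', fun j hj => ⟨by simp [(h3 j hj).1], (h3 j hj).2⟩, h4, h5.step2 h2 hi⟩
    · push Not at hi
      refine ⟨i :: ω', fun j hj => ?_, ?_, ?_⟩
      · rcases List.mem_cons.mp hj with rfl | hj
        exacts [⟨by simp, hi.1⟩, ⟨by simp [(h3 j hj).1], (h3 j hj).2⟩]
      · have := not_D.mp hi.2
        rw [cs.wordProd_cons, mul_assoc, List.length_cons]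
        rcases cs.length_simple_mul (cs.wordProd ω' * m) i with a | a <;> omega
      · rw [cs.wordProd_cons, mul_assoc]; exact h5.step1 h2 hi.1 hi.2

theorem exists_mx (w : W) (Q : Set B) : ∃ m, Mx cs w Q m := by
  obtain ⟨ω, h, rfl⟩ := cs.exists_isReduced w
  obtain ⟨ω', -, -, h1⟩ := Mx.word (cs := cs) (a := 1) (m := 1) (Q := Q)
    ⟨one_mem _, Relation.ReflTransGen.refl, fun _ _ h => h⟩ ω (by simpa using h.eq)
  exact ⟨_, by simpa using h1⟩

theorem Mx.wordQ {a m : W} {Q : Set B} (h : Mx cs a Q m) (ω : List B) (hQ : ∀ i ∈ ω, i ∈ Q)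
    (hl : cs.length (cs.wordProd ω * a) = ω.length + cs.length a)
    (hm : cs.length (cs.wordProd ω * m) = ω.length + cs.length m) :
    Mx cs (cs.wordProd ω * a) Q (cs.wordProd ω * m) := by
  induction ω with
  | nil => simpa using h
  | cons i ω ih =>
    obtain ⟨h1, h2⟩ := red_cons hl
    obtain ⟨h3, h4⟩ := red_cons hm
    rw [cs.wordProd_cons, mul_assoc, mul_assoc]
    exact (ih (fun j hj => hQ j (by simp [hj])) h1 h3).step1 h2 (hQ i (by simp)) h4

variable (cs) in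
/-- word form of a BP decomposition -/
def BW (w : W) (J : Set B) (a : W) : Prop := a ∈ P cs J ∧ ∃ ω : List B, w = cs.wordProd ω * a ∧
  cs.length (cs.wordProd ω * a) = ω.length + cs.length a ∧ ∀ i ∈ ω, i ∈ J → D cs a i

theorem BW.mx {w a : W} {J : Set B} (h : BW cs w J a) : Mx cs w J a := by
  obtain ⟨h1, ω, rfl, h2, h3⟩ := h
  induction ω with
  | nil => exact ⟨h1, by rw [cs.wordProd_nil, one_mul]; exact .refl, by simp⟩
  | cons i ω ih =>
    obtain ⟨h4, h5⟩ := red_cons h2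
    rw [cs.wordProd_cons, mul_assoc]
    exact (ih h4 fun j hj => h3 j (by simp [hj])).step2 h5 (h3 i (by simp))

theorem BW.restrict {u b q b' : W} {K Q : Set B} (h : BW cs u K b) (hq : Mx cs u Q q)
    (hb : Mx cs b Q b') : BW cs q K b' := by
  obtain ⟨h1, ω, rfl, h2, h3⟩ := h
  obtain ⟨ω', h4, h5, h6⟩ := hb.word ω h2
  exact ⟨P_down hb.le h1, ω', hq.uniq h6, h5, fun i hi hK =>
    hb.desc (h4 i hi).2 (h3 i (h4 i hi).1 hK)⟩

theorem BW.inter {w a b : W} {J K : Set B} (h : BW cs w J a) (h' : BW cs w K b) :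
    ∃ c, BW cs w (J ∩ K) c := by
  obtain ⟨c, hc⟩ := exists_mx (cs := cs) b J
  have h1 := h'.restrict h.mx hc
  have h2 := h1.mx
  obtain ⟨h3, ω, rfl, h4, h5⟩ := h
  obtain ⟨h6, ν, rfl, h7, h8⟩ := h1
  refine ⟨c, mem_P.mpr fun i hi => ⟨mem_P.mp hc.mem i hi, mem_P.mp h6 i hi⟩, ω ++ ν,
    by rw [cs.wordProd_append, mul_assoc], ?_, fun i hi hJ => ?_⟩
  · rw [cs.wordProd_append, mul_assoc, h4, h7, List.length_append, add_assoc]
  · rcases List.mem_append.mp hi with hi | hi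
    exacts [h2.desc hJ.2 (h5 i hi hJ.1), h8 i hi hJ.2]

theorem D_inv {a : W} {i : B} : D cs a⁻¹ i ↔ cs.length (a * cs.simple i) < cs.length a := by
  rw [D, ← cs.length_inv, mul_inv_rev, inv_inv, cs.inv_simple, cs.length_inv]

theorem D_pre {q a : W} (h : cs.length (q * a) = cs.length q + cs.length a) {i : B}
    (hi : D cs q i) : D cs (q * a) i := by
  have := cs.length_mul_le (cs.simple i * q) a
  unfold D at hi ⊢
  rw [mul_assoc] at this
  omega

/-- one reduction step -/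
theorem BW.step {u a : W} {J : Set B} (h : BW cs u J a) :
    ∃ q a', u = q * a' ∧ cs.length u = cs.length q + cs.length a' ∧
      Mx cs u {i | i ∈ J → D cs a i} q ∧ (a' = 1 → ∀ i ∈ J, D cs a i → D cs u⁻¹ i) := by
  obtain ⟨h1, ω, rfl, h2, h3⟩ := h
  obtain ⟨v, z, h4, h5, h6⟩ := exists_dec (cs := cs) {i | i ∈ J ∧ D cs a i} a⁻¹
  have h7 : a = z⁻¹ * v⁻¹ := by rw [← mul_inv_rev, ← h6, inv_inv]
  have h8 := h4.add h5
  have h9 : ∀ i ∈ {i | i ∈ J ∧ D cs a i}, D cs z⁻¹ i := fun i hi => by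
    have b1 := h4.add (mul_mem h5 (s_mem hi))
    have b2 := (D_inv (a := a⁻¹)).mp (by rw [inv_inv]; exact hi.2)
    rw [h6, mul_assoc] at b2
    rw [D_inv]; omega
  have l1 : cs.length a = cs.length z⁻¹ + cs.length v⁻¹ := by
    rw [← cs.length_inv, h6, h8, cs.length_inv, cs.length_inv, add_comm]
  have l2 := cs.length_mul_le (cs.wordProd ω * z⁻¹) v⁻¹
  have l3 := cs.length_mul_le (cs.wordProd ω) z⁻¹
  have l4 := cs.length_wordProd_le ω
  rw [mul_assoc, ← h7] at l2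
  refine ⟨cs.wordProd ω * z⁻¹, v⁻¹, by rw [mul_assoc, ← h7], by omega,
    Mx.wordQ ⟨?_, ?_, fun y hy hy' => dom h9 (mem_P.mpr fun i hi => ?_)⟩ ω h3 h2 (by omega),
    fun hv i hi hi' => ?_⟩
  · exact mem_P.mpr fun i hi _ => (mem_P.mp (inv_mem h5) i hi).2
  · have := Br_pre (cs := cs) (x := z⁻¹) (a := v⁻¹) (by rw [← h7, l1])
    rwa [← h7] at this
  · have := mem_P.mp h1 i (hi.trans hy')
    exact ⟨this, mem_P.mp hy i hi this⟩
  · rw [hv, mul_one] at h7
    have b1 := Br_le (dom h9 (mul_mem (inv_mem h5) (s_mem (i := i) ⟨hi, hi'⟩)))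
    have b2 := cs.length_mul_simple_ne a i
    have b3 := cs.length_mul_le (cs.wordProd ω) (a * cs.simple i)
    rw [← h7] at b1
    rw [D_inv, mul_assoc]; omega

theorem core {J K : Set B} {s : B} (hs : s ∈ J ∪ K) (n : ℕ) : ∀ {u a b : W}, cs.length u = n →
    u ∈ P cs (J ∪ K) → BW cs u J a → BW cs u K b → (s ∈ J → D cs a s) → (s ∈ K → D cs b s) →
    D cs u s := by
  induction n using Nat.strong_induction_on with
  | _ n ih =>
  intro u a b hn hu ha hb sa sb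
  have red : ∀ (Q : Set B) q a', s ∈ Q → u = q * a' → cs.length u = cs.length q + cs.length a' →
      Mx cs u Q q → a' ≠ 1 → D cs u s := fun Q q a' hQ e1 e2 e3 e4 => by
    obtain ⟨a0, h1⟩ := exists_mx (cs := cs) a Q
    obtain ⟨b0, h2⟩ := exists_mx (cs := cs) b Q
    have := mt cs.length_eq_zero_iff.mp e4
    rw [e1] at e2 ⊢
    exact D_pre e2 (ih _ (by rw [← hn, e1]; omega) rfl (P_down e3.le hu) (ha.restrict e3 h1)
      (hb.restrict e3 h2) (fun h => h1.desc hQ (sa h)) fun h => h2.desc hQ (sb h))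
  obtain ⟨q, a', a1, a2, a3, a4⟩ := ha.step
  obtain ⟨p, b', b1, b2, b3, b4⟩ := hb.step
  by_cases h1 : a' = 1
  swap
  · exact red {i | i ∈ J → D cs a i} q a' sa a1 a2 a3 h1
  by_cases h2 : b' = 1
  swap
  · exact red {i | i ∈ K → D cs b i} p b' sb b1 b2 b3 h2
  rw [h1, mul_one] at a1
  rw [h2, mul_one] at b1
  let A := {i | i ∈ J ∪ K ∧ (i ∈ J → D cs a i) ∧ (i ∈ K → D cs b i)}
  have h3 : u ∈ P cs A := mem_P.mpr fun i hi =>
    ⟨mem_P.mp hu i hi, mem_P.mp a3.mem i (a1 ▸ hi), mem_P.mp b3.mem i (b1 ▸ hi)⟩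
  have h4 := Br_le (dom (a := u⁻¹) (J := A) (fun i hi => hi.1.elim (fun h => a4 h1 i h (hi.2.1 h))
    fun h => b4 h2 i h (hi.2.2 h)) (mul_mem (s_mem ⟨hs, sa, sb⟩) h3))
  rw [cs.length_inv] at h4
  rw [← not_not (a := D cs u s), not_D]; omega

theorem BW.split {w a : W} {J L : Set B} (h : BW cs w J a) (hL : J ⊆ L) :
    ∃ v u, Mn cs L v ∧ u ∈ P cs L ∧ w = v * u ∧ BW cs u J a ∧
      ∀ i ∈ J, Br cs (cs.simple i) v → D cs a i := by
  obtain ⟨h1, ω, rfl, h2, h3⟩ := h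
  obtain ⟨v, x, h4, h5, h6⟩ := exists_dec (cs := cs) L (cs.wordProd ω)
  have h7 := h4.add h5
  obtain ⟨ν, h8, rfl⟩ := cs.exists_isReduced x
  have h9 : cs.wordProd ν * a ∈ P cs L :=
    mul_mem h5 (Subgroup.closure_mono (Set.image_mono hL) h1)
  have l1 := h4.add h9
  have l2 := cs.length_mul_le (cs.wordProd ω) a
  have l3 := cs.length_wordProd_le ω
  have l4 := h8.eq
  rw [← mul_assoc, ← h6] at l1
  refine ⟨v, _, h4, h9, by rw [h6, mul_assoc], ⟨h1, ν, rfl, by rw [← h6] at h7; omega,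
    fun i hi => h3 i (mem_of_br (cs := cs) ?_)⟩, fun i hi hv => h3 i (mem_of_br (cs := cs) ?_) hi⟩
  · rw [h6]; exact (br_of_mem h8 hi).trans (Br_suf h7)
  · rw [h6]; exact hv.trans (Br_pre h7)

theorem BW.union {w a b : W} {J K : Set B} (h : BW cs w J a) (h' : BW cs w K b) :
    ∃ c, BW cs w (J ∪ K) c := by
  obtain ⟨v, u, a1, a2, a3, a4, a5⟩ := h.split (Set.subset_union_left (t := K))
  obtain ⟨v', u', b1, b2, b3, b4, b5⟩ := h'.split (Set.subset_union_right (s := J))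
  obtain rfl := a1.uniq b1 a2 b2 (a3.symm.trans b3)
  obtain rfl := mul_left_cancel (a3.symm.trans b3)
  obtain ⟨ω, h1, rfl⟩ := cs.exists_isReduced v
  exact ⟨u, a2, ω, a3, by rw [a1.add a2, h1.eq], fun i hi hi' => core hi' _ rfl a2 a4 b4
    (fun h => a5 i h (br_of_mem h1 hi)) fun h => b5 i h (br_of_mem h1 hi)⟩

theorem bw_iff {w : W} {J : Set B} : (∃ a, BW cs w J a) ↔ ∃ v u, w = v * u ∧ Mn cs J v ∧
    u ∈ P cs J ∧ ∀ i ∈ J, (∃ ω, cs.IsReduced ω ∧ cs.wordProd ω = v ∧ i ∈ ω) → D cs u i := by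
  constructor
  · rintro ⟨a, h1, ω, rfl, h2, h3⟩
    refine ⟨_, a, rfl, fun i hi => ?_, h1, fun i hi ⟨ν, h4, h5, h6⟩ =>
      h3 i (mem_of_br (h5 ▸ br_of_mem h4 h6)) hi⟩
    by_contra hc
    have l1 := cs.length_mul_simple_ne (cs.wordProd ω) i
    have l2 : D cs (cs.wordProd ω)⁻¹ i := D_inv.mpr (by omega)
    have l3 := Br_inv l2.br
    rw [inv_inv, cs.inv_simple] at l3
    have l4 := h3 i (mem_of_br l3) hi
    have l5 := cs.length_mul_le (cs.wordProd ω * cs.simple i) (cs.simple i * a)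
    have l6 := cs.length_wordProd_le ω
    rw [mul_assoc, cs.simple_mul_simple_cancel_left] at l5
    unfold D at l4
    omega
  · rintro ⟨v, u, rfl, h1, h2, h3⟩
    obtain ⟨ω, h4, rfl⟩ := cs.exists_isReduced v
    exact ⟨u, h2, ω, rfl, by rw [h1.add h2, h4.eq], fun i hi hJ => h3 i hJ ⟨ω, h4, rfl, hi⟩⟩

end Pool.Agent.H.MP_330ad9_al
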